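import Pool.Agent.Helper89.Vol.Goals2
import Pool.Agent.Helper17.Vol.PATH

/-!
# Project V36 (MP_cd13d2_co), packet V36-PATHE: equality in the path inequality
-/

set_option autoImplicit false

namespace Pool.Agent.Helper14.Vol.PkPATHE

open MeasureTheory Set Pool.Agent.Helper86.Poly Pool.Agent.Helper89.Vol
open Pool.Agent.Helper17.Vol.PkPATH (br_sub br_axis coord)

/-- the reflection in the second coordinate -/
noncomputable def Rf : E 3 ≃ₗᵢ[ℝ] E 3 :=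
  LinearIsometryEquiv.piLpCongrRight 2
    (fun i : Fin 3 => if i = 1 then LinearIsometryEquiv.neg ℝ else LinearIsometryEquiv.refl ℝ ℝ)

theorem Rf0 (v : E 3) : Rf v 0 = v 0 := by
  simp [Rf, LinearIsometryEquiv.piLpCongrRight_apply]

theorem Rf1 (v : E 3) : Rf v 1 = - v 1 := by
  simp [Rf, LinearIsometryEquiv.piLpCongrRight_apply]

theorem Rf2 (v : E 3) : Rf v 2 = v 2 := by
  simp [Rf, LinearIsometryEquiv.piLpCongrRight_apply]

theorem ext3 {u v : E 3} (h0 : u 0 = v 0) (h1 : u 1 = v 1) (h2 : u 2 = v 2) : u = v := by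
  ext m
  fin_cases m
  · exact h0
  · exact h1
  · exact h2

theorem sq_diff (N : ℝ) (h0 : 0 ≤ N) (h1 : N ≤ 1 / 2) :
    (√(3 / 4 - N ^ 2) - hh N) ^ 2 = 1 - (1 / 2 + N) ^ 2 := by
  have e : √(3 / 4 - N ^ 2) - hh N = √(1 - (1 / 2 + N) ^ 2) := by
    unfold hh
    ring
  rw [e, Real.sq_sqrt]
  nlinarith

theorem thm (h : G_PA0E) (hF : G_FRM) : G_PATHE := by
  intro N hN hmax y hy hpath
  obtain ⟨L, ε, hε, hbr, he0, he1, he2, hn1, hn0⟩ := hF (y 1 - y 0) (y 4 - y 3)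
  obtain ⟨x, hx⟩ : ∃ x : Fin 6 → E 3, x = fun k => L (y k - y 0) := ⟨_, rfl⟩
  have hxk : ∀ k, x k = L (y k - y 0) := fun k => congrFun hx k
  have hd : ∀ i j, ‖x i - x j‖ ≤ 1 := by
    intro i j
    have e : x i - x j = L (y i - y j) := by
      rw [hxk, hxk, ← map_sub]
      congr 1
      abel
    rw [e, LinearIsometryEquiv.norm_map, ← dist_eq_norm]
    exact hy i j
  have hco : ∀ i j, (x i 0 - x j 0) ^ 2 + (x i 1 - x j 1) ^ 2 + (x i 2 - x j 2) ^ 2 ≤ 1 :=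
    fun i j => coord (x i) (x j) (hd i j)
  have hx0 : ∀ m : Fin 3, x 0 m = 0 := by
    intro m
    rw [hxk]
    simp
  have hl1 : ‖y 1 - y 0‖ ≤ 1 := by
    rw [← dist_eq_norm]
    exact hy 1 0
  have hx34 : x 4 - x 3 = L (y 4 - y 3) := by
    rw [hxk, hxk, ← map_sub]
    congr 1
    abel
  have h41 : x 4 1 = x 3 1 := by
    have h1 : (x 4 - x 3) 1 = 0 := by
      rw [hx34]
      exact hn1
    rw [PiLp.sub_apply] at h1
    exact sub_eq_zero.1 h1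
  have h40 : x 3 0 ≤ x 4 0 := by
    have h1 : 0 ≤ (x 4 - x 3) 0 := by
      rw [hx34]
      exact hn0
    rw [PiLp.sub_apply] at h1
    exact sub_nonneg.1 h1
  have e10 : x 1 0 = 0 := by rw [hxk]; exact he0
  have e11 : x 1 1 = 0 := by rw [hxk]; exact he1
  have e12 : x 1 2 = ‖y 1 - y 0‖ := by rw [hxk]; exact he2
  have hB : ∀ i j, ε * br (y 0) (y 1) (y i) (y j) =
      ‖y 1 - y 0‖ * (x i 0 * x j 1 - x i 1 * x j 0) := by
    intro i j
    rw [← br_sub (y 0) (y 1) (y i) (y j) (y 0), ← hbr, ← hxk, ← hxk, ← hxk, ← hxk]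
    exact br_axis _ _ _ _ _ (hx0 0) (hx0 1) (hx0 2) e10 e11 e12
  have hz : ∀ k, x k 0 ^ 2 + x k 1 ^ 2 + (x k 2 - 0) ^ 2 ≤ 1 := by
    intro k
    have := hco k 0
    rw [hx0, hx0, hx0, sub_zero, sub_zero] at this
    exact this
  have hz1 : ∀ k, x k 0 ^ 2 + x k 1 ^ 2 + (x k 2 - 0 - ‖y 1 - y 0‖) ^ 2 ≤ 1 := by
    intro k
    have := hco k 1
    rw [e10, e11, e12, sub_zero, sub_zero] at this
    rw [sub_zero]
    exact this
  have hp : ∀ i j, (x i 0 - x j 0) ^ 2 + (x i 1 - x j 1) ^ 2 ≤ 1 := by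
    intro i j
    have := hco i j
    nlinarith [sq_nonneg (x i 2 - x j 2)]
  have ha : |ε| = 1 := by
    rcases hε with rfl | rfl <;> simp
  have hs : ‖y 1 - y 0‖ * ((x 2 0 * x 3 1 - x 2 1 * x 3 0) + (x 3 0 * x 4 1 - x 3 1 * x 4 0) +
      (x 4 0 * x 5 1 - x 4 1 * x 5 0)) = ε * path y := by
    rw [path, mul_add ε, mul_add ε, hB, hB, hB]
    ring
  have hval : f N ≤ |‖y 1 - y 0‖ * ((x 2 0 * x 3 1 - x 2 1 * x 3 0) +
      (x 3 0 * x 4 1 - x 3 1 * x 4 0) + (x 4 0 * x 5 1 - x 4 1 * x 5 0))| := by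
    rw [hs, abs_mul, ha, one_mul]
    exact hpath
  obtain ⟨c1, c2, c3, c4, c5, c6, c7, c8⟩ := h N hN hmax 0 ‖y 1 - y 0‖ (x 2 0) (x 2 1) (x 2 2)
    (x 3 0) (x 3 1) (x 3 2) (x 4 0) (x 4 1)
    (x 4 2) (x 5 0) (x 5 1) (x 5 2) (norm_nonneg _) hl1 h41 h40 (hz 2) (hz1 2) (hz 3) (hz1 3)
    (hz 4) (hz1 4) (hz 5) (hz1 5) (hp 2 3) (hp 2 4) (hp 2 5) (hp 3 4) (hp 3 5) (hp 4 5) hval
  rw [zero_add] at c4 c5
  rw [c1] at e12
  have hsd := sq_diff N hN.1 hN.2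
  have key : ∃ R : E 3 ≃ₗᵢ[ℝ] E 3, ∀ k, R (Q N k) = x k := by
    rcases c8 with ⟨d1, d2, d3⟩ | ⟨d1, d2, d3⟩
    · have f2 : x 2 2 = 1 / 2 := by
        have := hco 2 4
        rw [c6, c3, h41, d1, d2, c5] at this
        have h5 : (x 2 2 - 1 / 2) ^ 2 ≤ 0 := by nlinarith
        have h6 := pow_eq_zero_iff (two_ne_zero) |>.1 (le_antisymm h5 (sq_nonneg _))
        linarith
      have f5 : x 5 2 = 1 / 2 := by
        have := hco 5 3
        rw [c7, c2, d1, d3, c4] at this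
        have h5 : (x 5 2 - 1 / 2) ^ 2 ≤ 0 := by nlinarith
        have h6 := pow_eq_zero_iff (two_ne_zero) |>.1 (le_antisymm h5 (sq_nonneg _))
        linarith
      refine ⟨LinearIsometryEquiv.refl ℝ (E 3), fun k => ?_⟩
      rw [LinearIsometryEquiv.coe_refl, id]
      fin_cases k
      · refine ext3 ?_ ?_ ?_ <;> simp [Q, hx0]
      · refine ext3 ?_ ?_ ?_ <;> simp [Q, e10, e11, e12]
      · refine ext3 ?_ ?_ ?_ <;> simp [Q, c6, d2, f2]
      · refine ext3 ?_ ?_ ?_ <;> simp [Q, c2, d1, c4]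
      · refine ext3 ?_ ?_ ?_ <;> simp [Q, c3, h41, d1, c5]
      · refine ext3 ?_ ?_ ?_ <;> simp [Q, c7, d3, f5]
    · have f2 : x 2 2 = 1 / 2 := by
        have := hco 2 4
        rw [c6, c3, h41, d1, d2, c5] at this
        have h5 : (x 2 2 - 1 / 2) ^ 2 ≤ 0 := by nlinarith
        have h6 := pow_eq_zero_iff (two_ne_zero) |>.1 (le_antisymm h5 (sq_nonneg _))
        linarith
      have f5 : x 5 2 = 1 / 2 := by
        have := hco 5 3
        rw [c7, c2, d1, d3, c4] at this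
        have h5 : (x 5 2 - 1 / 2) ^ 2 ≤ 0 := by nlinarith
        have h6 := pow_eq_zero_iff (two_ne_zero) |>.1 (le_antisymm h5 (sq_nonneg _))
        linarith
      refine ⟨Rf, fun k => ?_⟩
      fin_cases k
      · refine ext3 ?_ ?_ ?_ <;> simp [Q, hx0, Rf0, Rf1, Rf2]
      · refine ext3 ?_ ?_ ?_ <;> simp [Q, e10, e11, e12, Rf0, Rf1, Rf2]
      · refine ext3 ?_ ?_ ?_ <;> simp [Q, c6, d2, f2, Rf0, Rf1, Rf2]
      · refine ext3 ?_ ?_ ?_ <;> simp [Q, c2, d1, c4, Rf0, Rf1, Rf2]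
      · refine ext3 ?_ ?_ ?_ <;> simp [Q, c3, h41, d1, c5, Rf0, Rf1, Rf2]
      · refine ext3 ?_ ?_ ?_ <;> simp [Q, c7, d3, f5, Rf0, Rf1, Rf2]
  obtain ⟨R, hR⟩ := key
  refine ⟨(R.toIsometryEquiv.trans L.symm.toIsometryEquiv).trans (IsometryEquiv.addRight (y 0)),
    fun k => ?_⟩
  show L.symm (R (Q N k)) + y 0 = y k
  rw [hR, hxk, LinearIsometryEquiv.symm_apply_apply, sub_add_cancel]

end Pool.Agent.Helper14.Vol.PkPATHE
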